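import Pool.Agent.W510.CG.Stm

/-! Project CG, part HT0. -/

set_option autoImplicit false

open Pool.Agent.W510.CG

namespace Pool.Agent.W135.CGHT0

section abs

variable {M B : Type} [DecidableEq B]

theorem ai {M : Type} (g : Equiv.Perm M) (z : M) : g (g⁻¹ z) = z := by simp

theorem ia {M : Type} (g : Equiv.Perm M) (z : M) : g⁻¹ (g z) = z := by simp

/-- `g` exchanges the branches `p` and `q` and fixes the others pointwise -/
def PP (b : M → B) (g : Equiv.Perm M) (p q : B) : Prop :=
  (∀ z : M, b z ≠ p → b z ≠ q → g z = z) ∧ ∀ z : M, b (g z) = Equiv.swap p q (b z)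

theorem PP.symm {b : M → B} {g : Equiv.Perm M} {p q : B} (h : PP b g p q) : PP b g q p :=
  ⟨fun z h1 h2 => h.1 z h2 h1, fun z => by rw [h.2, Equiv.swap_comm]⟩

theorem PP.inv {b : M → B} {g : Equiv.Perm M} {p q : B} (h : PP b g p q) : PP b g⁻¹ p q := by
  refine ⟨fun z h1 h2 => ?_, fun z => ?_⟩
  · rw [Equiv.Perm.inv_eq_iff_eq]; exact (h.1 z h1 h2).symm
  · have h3 := h.2 (g⁻¹ z)
    rw [ai] at h3
    rw [h3, Equiv.swap_apply_self]

theorem conj {b : M → B} {k t : Equiv.Perm M} {p q r : B} (hpr : p ≠ r) (hpq : p ≠ q)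
    (hqr : q ≠ r) (hk : PP b k p q) (ht : PP b t q r) : PP b (t⁻¹ * k * t) p r := by
  refine ⟨fun z h1 h2 => ?_, fun z => ?_⟩
  · have h3 : b (t z) ≠ p := by
      rw [ht.2]
      intro h
      have := congrArg (Equiv.swap q r) h
      rw [Equiv.swap_apply_self, Equiv.swap_apply_of_ne_of_ne hpq hpr] at this
      exact h1 this
    have h4 : b (t z) ≠ q := by
      rw [ht.2]
      intro h
      have := congrArg (Equiv.swap q r) h
      rw [Equiv.swap_apply_self, Equiv.swap_apply_left] at this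
      exact h2 this
    simp only [Equiv.Perm.coe_mul, Function.comp_apply]
    rw [hk.1 _ h3 h4, ia]
  · simp only [Equiv.Perm.coe_mul, Function.comp_apply]
    rw [ht.inv.2, hk.2, ht.2]
    have e : Equiv.swap q r * Equiv.swap p q * Equiv.swap q r = Equiv.swap p r := by
      have h := Equiv.swap_mul_swap_mul_swap (x := p) (y := q) (z := r) hpq hpr
      rw [h, Equiv.swap_comm]
    rw [← e]
    rfl

end abs

theorem main (h1 : S_IOTA) (h2 : S_LOC) : S_HT0 := by
  intro L _ _ _ x y
  set b : Pt L → Option ℤ := br (γ0 L) with hb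
  have hpt : ∀ c : ℤ, b (some (Finsupp.single 0 c)) = some c := by
    intro c
    rw [hb, br_some_of]
    · simp [γ0]
    · intro μ hμ
      have : (0 : L) ≠ μ := ne_of_lt hμ
      simp [γ0, this]
  have J : ∀ c : ℤ, ∃ k ∈ Iso L, PP b k none (some c) := by
    intro c
    obtain ⟨ι, hι, hι1, hι2, hι3⟩ := h1 L
    have hιP : PP b ι none (some 0) := by
      refine ⟨hι1, fun z => ?_⟩
      by_cases h3 : b z = none
      · have := hι2 z h3
        rw [h3, Equiv.swap_apply_left]
        exact this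
      · by_cases h4 : b z = some 0
        · have := hι3 z h4
          rw [h4, Equiv.swap_apply_right]
          exact this
        · rw [hι1 z h3 h4, Equiv.swap_apply_of_ne_of_ne h3 h4]
    by_cases hc : c = 0
    · subst hc
      exact ⟨ι, hι, hιP⟩
    · obtain ⟨t, ht, -, ht1, ht2⟩ := h2 L (some (Finsupp.single 0 0)) (some (Finsupp.single 0 c))
        (by rw [← hb, hpt]; simp) (by rw [← hb, hpt]; simp)
      rw [← hb, hpt, hpt] at ht1 ht2
      refine ⟨t⁻¹ * ι * t, (Iso L).mul_mem ((Iso L).mul_mem ((Iso L).inv_mem ht) hι) ht, ?_⟩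
      refine conj (q := some 0) (by simp) (by simp) ?_ hιP ⟨ht1, ht2⟩
      intro h
      exact hc (Option.some.inj h).symm
  -- outer to inner
  have K1 : ∀ x y : Pt L, b x = none → b y ≠ none → ∃ g ∈ Iso L, g x = y ∧ PP b g (b x) (b y) := by
    intro x y hx hy
    obtain ⟨c, hc⟩ := Option.ne_none_iff_exists'.1 hy
    obtain ⟨k, hk, hkP⟩ := J c
    have hkx : b (k x) = some c := by rw [hkP.2, hx, Equiv.swap_apply_left]
    obtain ⟨g', hg', hg1, hg2, hg3⟩ := h2 L (k x) y (by rw [← hb, hkx]; simp) hy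
    rw [← hb, hkx, hc] at hg2 hg3
    refine ⟨g' * k, (Iso L).mul_mem hg' hk, hg1, ?_⟩
    rw [hx, hc]
    refine ⟨fun z h3 h4 => ?_, fun z => ?_⟩
    · show g' (k z) = z
      rw [hkP.1 z h3 h4, hg2 z h4 h4]
    · show b (g' (k z)) = _
      rw [hg3, Equiv.swap_self, Equiv.refl_apply, hkP.2]
  by_cases hx : b x = none
  · by_cases hy : b y = none
    · obtain ⟨k, hk, hkP⟩ := J 0
      have hkx : b (k x) = some 0 := by rw [hkP.2, hx, Equiv.swap_apply_left]
      have hky : b (k y) = some 0 := by rw [hkP.2, hy, Equiv.swap_apply_left]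
      obtain ⟨g', hg', hg1, hg2, hg3⟩ := h2 L (k x) (k y) (by rw [← hb, hkx]; simp)
        (by rw [← hb, hky]; simp)
      rw [← hb, hkx, hky] at hg2 hg3
      refine ⟨k⁻¹ * g' * k, (Iso L).mul_mem ((Iso L).mul_mem ((Iso L).inv_mem hk) hg') hk,
        ?_, ?_, ?_⟩
      · show k⁻¹ (g' (k x)) = y
        rw [hg1, ia]
      · intro z h3 _
        rw [hx] at h3
        have h4 : b (k z) ≠ some 0 := by
          rw [hkP.2]
          intro h
          have h5 := congrArg (Equiv.swap none (some 0)) h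
          rw [Equiv.swap_apply_self, Equiv.swap_apply_right] at h5
          exact h3 h5
        show k⁻¹ (g' (k z)) = z
        rw [hg2 _ h4 h4, ia]
      · intro z
        show b (k⁻¹ (g' (k z))) = _
        rw [hkP.inv.2, hg3, Equiv.swap_self, Equiv.refl_apply, hkP.2, Equiv.swap_apply_self, hx, hy,
          Equiv.swap_self, Equiv.refl_apply]
    · obtain ⟨g, hg, hg1, hg2⟩ := K1 x y hx hy
      exact ⟨g, hg, hg1, hg2.1, hg2.2⟩
  · by_cases hy : b y = none
    · obtain ⟨g, hg, hg1, hg2⟩ := K1 y x hy hx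
      have h3 := hg2.inv.symm
      refine ⟨g⁻¹, (Iso L).inv_mem hg, ?_, h3.1, h3.2⟩
      rw [Equiv.Perm.inv_eq_iff_eq]; exact hg1.symm
    · exact h2 L x y hx hy

end Pool.Agent.W135.CGHT0
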